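import Pool.Agent.H126R2.CDC.Main

set_option autoImplicit false
set_option linter.unusedSectionVars false

/-!
For odd k no graph containing a subdivision of the Petersen graph has property P_k: on such a graph
there is an admissible eulerian weight with values 0, k, 2 k without faithful circuit cover.
-/

namespace Pool.Agent.Results.MP_3c540c_co.OddMultiples

open Finset
open Pool.Agent.H126R2.CDC (MGraph)

variable {V E : Type} [Fintype V] [DecidableEq V] [Fintype E] [DecidableEq E]

/-- The edge-cut of X: the edges with exactly one end in X. -/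
def cut (G : MGraph V E) (X : Finset V) : Finset E :=
  univ.filter (fun e => (∃ v ∈ X, v ∈ G.ends e) ∧ ∃ v ∉ X, v ∈ G.ends e)

/-- w e is at most the sum of the other weights of T, for every edge-cut T and every e in T. -/
def Admissible (G : MGraph V E) (w : E → ℕ) : Prop :=
  ∀ X : Finset V, ∀ e ∈ cut G X, w e ≤ ∑ f ∈ (cut G X).erase e, w f

/-- Every edge-cut has even total weight. -/
def Eulerian (G : MGraph V E) (w : E → ℕ) : Prop :=
  ∀ X : Finset V, Even (∑ f ∈ cut G X, w f)

/-- (G, w) has a faithful circuit cover. -/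
def HasCover (G : MGraph V E) (w : E → ℕ) : Prop :=
  ∃ F : Multiset (Finset E), (∀ C ∈ F, G.IsCircuit C) ∧ ∀ e, F.countP (fun C => e ∈ C) = w e

/-- Property P_k. -/
def PropertyP (k : ℕ) (G : MGraph V E) : Prop :=
  ∀ w : E → ℕ, (∀ e, k ∣ w e) → Admissible G w → Eulerian G w → HasCover G w

/-- The edges of the Petersen graph: (i, 0) joins (i, false) and (i + 1, false), (i, 1) joins
(i, false) and (i, true), (i, 2) joins (i, true) and (i + 2, true). This is the first end. -/
def end1 (a : ZMod 5 × Fin 3) : ZMod 5 × Bool := (a.1, decide (a.2 = 2))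

/-- The second end of an edge of the Petersen graph. -/
def end2 (a : ZMod 5 × Fin 3) : ZMod 5 × Bool :=
  if a.2 = 0 then (a.1 + 1, false) else if a.2 = 1 then (a.1, true) else (a.1 + 2, true)

/-- D is the edge set of a path of G with the ends x and y. -/
def IsPath (G : MGraph V E) (D : Finset E) (x y : V) : Prop :=
  x ≠ y ∧ G.deg D x = 1 ∧ G.deg D y = 1 ∧
    (∀ v, v ≠ x → v ≠ y → G.deg D v = 0 ∨ G.deg D v = 2) ∧
    ∀ e ∈ D, ∀ f ∈ D,
      Relation.ReflTransGen (fun a b => b ∈ D ∧ ∃ v, v ∈ G.ends a ∧ v ∈ G.ends b) e f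

/-- b gives the branch vertices and P the paths of a subdivision of the Petersen graph in G. -/
def IsSubdivision (G : MGraph V E) (b : ZMod 5 × Bool → V) (P : ZMod 5 × Fin 3 → Finset E) :
    Prop :=
  Function.Injective b ∧ (∀ a, IsPath G (P a) (b (end1 a)) (b (end2 a))) ∧
    (∀ a a', a ≠ a' → Disjoint (P a) (P a')) ∧
    (∀ a a' v, a ≠ a' → G.deg (P a) v ≠ 0 → G.deg (P a') v ≠ 0 → v ∈ Set.range b) ∧
    ∀ a x, G.deg (P a) (b x) ≠ 0 → x = end1 a ∨ x = end2 a

/-- G contains a subdivision of the Petersen graph. -/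
def ContainsPetersenSubdivision (G : MGraph V E) : Prop :=
  ∃ (b : ZMod 5 × Bool → V) (P : ZMod 5 × Fin 3 → Finset E), IsSubdivision G b P

/-! ### The Petersen graph -/

/-- the edges at the vertex x -/
def inc (x : ZMod 5 × Bool) : Finset (ZMod 5 × Fin 3) := univ.filter fun a => x = end1 a ∨ x = end2 a

theorem inc_out : ∀ i : ZMod 5, inc (i + 1, false) = {(i + 1, 0), (i, 0), (i + 1, 1)} := by decide
theorem inc_in : ∀ i : ZMod 5, inc (i + 2, true) = {(i + 2, 2), (i, 2), (i + 2, 1)} := by decide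

theorem nm1 : ∀ i : ZMod 5, (i + 1, 0) ∉ ({(i, 0), (i + 1, 1)} : Finset (ZMod 5 × Fin 3)) := by decide
theorem nm2 : ∀ i : ZMod 5, (i, 0) ∉ ({(i + 1, 1)} : Finset (ZMod 5 × Fin 3)) := by decide
theorem nm3 : ∀ i : ZMod 5, (i + 2, 2) ∉ ({(i, 2), (i + 2, 1)} : Finset (ZMod 5 × Fin 3)) := by decide
theorem nm4 : ∀ i : ZMod 5, (i, 2) ∉ ({(i + 2, 1)} : Finset (ZMod 5 × Fin 3)) := by decide

theorem end_ne : ∀ a, end1 a ≠ end2 a := by decide

/-- weights of the edges -/
def wt (a : ZMod 5 × Fin 3) : ℕ := if a.2 = 1 then 2 else 1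

/-- the 8-circuit missing the spoke i -/
def Cyc (i : ZMod 5) : Finset (ZMod 5 × Fin 3) :=
  {(i + 1, 0), (i + 3, 0), (i + 1, 1), (i + 2, 1), (i + 3, 1), (i + 4, 1), (i + 1, 2), (i + 2, 2)}

theorem cyc_even : ∀ i x, Even ((Cyc i).filter fun a => x = end1 a ∨ x = end2 a).card := by decide

theorem cyc_wt : ∀ a, ∑ i, (if a ∈ Cyc i then 1 else 0) = 2 * wt a := by decide

/-- the two pentagons -/
def Pent : Finset (ZMod 5 × Fin 3) := univ.filter fun a => a.2 ≠ 1

theorem pent_even : ∀ x, Even (Pent.filter fun a => x = end1 a ∨ x = end2 a).card := by decide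

theorem inc_wt : ∀ x, ∑ a ∈ inc x, wt a = 4 := by decide

theorem spoke_mem : ∀ x : ZMod 5 × Bool, ((x.1, 1) : ZMod 5 × Fin 3) ∈ inc x := by decide

theorem arith_check (o0 o1 o2 o3 o4 q0 q1 q2 q3 q4 : ℕ) (h1 : o1 + o0 ≤ 1) (h2 : o2 + o1 ≤ 1)
    (h3 : o3 + o2 ≤ 1) (h4 : o4 + o3 ≤ 1) (h0 : o0 + o4 ≤ 1) (g1 : o1 + o0 = q1 + q4)
    (g2 : o2 + o1 = q2 + q0) (g3 : o3 + o2 = q3 + q1) (g4 : o4 + o3 = q4 + q2)
    (g0 : o0 + o4 = q0 + q3) : (o0 + o1 + o2 + o3 + o4) % 2 = 0 := by
  have r0 : o0 = 0 ∨ o0 = 1 := by omega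
  have r1 : o1 = 0 ∨ o1 = 1 := by omega
  have r2 : o2 = 0 ∨ o2 = 1 := by omega
  have r3 : o3 = 0 ∨ o3 = 1 := by omega
  have r4 : o4 = 0 ∨ o4 = 1 := by omega
  rcases r0 with rfl | rfl <;> rcases r1 with rfl | rfl <;> rcases r2 with rfl | rfl <;>
    rcases r3 with rfl | rfl <;> rcases r4 with rfl | rfl <;> omega

/-- A union of edges in which every vertex is on no edge, or on the spoke and one pentagon edge, has
an even number of edges on the outer pentagon. -/
theorem finite_check (f : ZMod 5 × Fin 3 → ℕ) (hf : ∀ a, f a ≤ 1)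
    (h : ∀ x : ZMod 5 × Bool, ∑ a ∈ inc x, f a = 2 * f (x.1, 1)) :
    Even (∑ i : ZMod 5, f (i, 0)) := by
  have h1 : ∀ i : ZMod 5, f (i + 1, 0) + f (i, 0) = f (i + 1, 1) := by
    intro i
    have h2 := h (i + 1, false)
    rw [inc_out i, Finset.sum_insert (nm1 i), Finset.sum_insert (nm2 i),
      Finset.sum_singleton] at h2
    simp only at h2
    omega
  have h2 : ∀ i : ZMod 5, f (i + 2, 2) + f (i, 2) = f (i + 2, 1) := by
    intro i
    have h2 := h (i + 2, true)
    rw [inc_in i, Finset.sum_insert (nm3 i), Finset.sum_insert (nm4 i),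
      Finset.sum_singleton] at h2
    simp only at h2
    omega
  have e1 : ((0 : ZMod 5) + 1) = 1 := by decide
  have e2 : ((1 : ZMod 5) + 1) = 2 := by decide
  have e3 : ((2 : ZMod 5) + 1) = 3 := by decide
  have e4 : ((3 : ZMod 5) + 1) = 4 := by decide
  have e5 : ((4 : ZMod 5) + 1) = 0 := by decide
  have g1 : ((0 : ZMod 5) + 2) = 2 := by decide
  have g2 : ((1 : ZMod 5) + 2) = 3 := by decide
  have g3 : ((2 : ZMod 5) + 2) = 4 := by decide
  have g4 : ((3 : ZMod 5) + 2) = 0 := by decide
  have g5 : ((4 : ZMod 5) + 2) = 1 := by decide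
  have a0 := h1 0
  have a1 := h1 1
  have a2 := h1 2
  have a3 := h1 3
  have a4 := h1 4
  have b0 := h2 0
  have b1 := h2 1
  have b2 := h2 2
  have b3 := h2 3
  have b4 := h2 4
  rw [e1] at a0
  rw [e2] at a1
  rw [e3] at a2
  rw [e4] at a3
  rw [e5] at a4
  rw [g1] at b0
  rw [g2] at b1
  rw [g3] at b2
  rw [g4] at b3
  rw [g5] at b4
  have hsum : ∑ i : ZMod 5, f (i, 0) = f (0, 0) + f (1, 0) + f (2, 0) + f (3, 0) + f (4, 0) := by
    have : (univ : Finset (ZMod 5)) = {0, 1, 2, 3, 4} := by decide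
    rw [this, Finset.sum_insert (by decide), Finset.sum_insert (by decide),
      Finset.sum_insert (by decide), Finset.sum_insert (by decide), Finset.sum_singleton]
    ring
  rw [hsum, Nat.even_iff]
  have d0 := hf (0, 1)
  have d1 := hf (1, 1)
  have d2 := hf (2, 1)
  have d3 := hf (3, 1)
  have d4 := hf (4, 1)
  apply arith_check (f (0, 0)) (f (1, 0)) (f (2, 0)) (f (3, 0)) (f (4, 0)) (f (0, 2)) (f (1, 2))
    (f (2, 2)) (f (3, 2)) (f (4, 2))
  · omega
  · omega
  · omega
  · omega
  · omega
  · omega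
  · omega
  · omega
  · omega
  · omega

/-! ### Unions of the paths of a subdivision -/

section U
variable (G : MGraph V E) {b : ZMod 5 × Bool → V} {P : ZMod 5 × Fin 3 → Finset E}

theorem ep_pos {e : E} {v : V} (h : v ∈ G.ends e) : 1 ≤ G.ep e v := by
  unfold MGraph.ep
  rw [if_pos h]
  omega

theorem ep_le_deg {D : Finset E} {e : E} (he : e ∈ D) (v : V) : G.ep e v ≤ G.deg D v := by
  rw [G.deg_eq_sum]
  exact Finset.single_le_sum (f := fun e => G.ep e v) (fun _ _ => Nat.zero_le _) he

theorem deg_U (hP : IsSubdivision G b P) (A : Finset (ZMod 5 × Fin 3)) (v : V) :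
    G.deg (A.biUnion P) v = ∑ a ∈ A, G.deg (P a) v := by
  rw [G.deg_eq_sum, Finset.sum_biUnion]
  · exact Finset.sum_congr rfl fun a _ => (G.deg_eq_sum (P a) v).symm
  · intro a _ a' _ h
    exact hP.2.2.1 a a' h

theorem mem_U (hP : IsSubdivision G b P) (A : Finset (ZMod 5 × Fin 3)) {a : ZMod 5 × Fin 3}
    {e : E} (he : e ∈ P a) : e ∈ A.biUnion P ↔ a ∈ A := by
  rw [mem_biUnion]
  constructor
  · rintro ⟨a', ha', h⟩
    by_contra hn
    have hne : a ≠ a' := by rintro rfl; exact hn ha'
    exact (Finset.disjoint_left.1 (hP.2.2.1 a a' hne)) he h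
  · exact fun h => ⟨a, h, he⟩

theorem deg_branch (hP : IsSubdivision G b P) (a : ZMod 5 × Fin 3) (x : ZMod 5 × Bool) :
    G.deg (P a) (b x) = if x = end1 a ∨ x = end2 a then 1 else 0 := by
  obtain ⟨hb, hp, hd, hi, he⟩ := hP
  by_cases h : x = end1 a ∨ x = end2 a
  · rw [if_pos h]
    rcases h with rfl | rfl
    · exact (hp a).2.1
    · exact (hp a).2.2.1
  · rw [if_neg h]
    by_contra h0
    exact h (he a x h0)

theorem deg_other (hP : IsSubdivision G b P) (a : ZMod 5 × Fin 3) (v : V)
    (hv : v ∉ Set.range b) : G.deg (P a) v = 0 ∨ G.deg (P a) v = 2 :=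
  (hP.2.1 a).2.2.2.1 v (fun h => hv ⟨_, h.symm⟩) (fun h => hv ⟨_, h.symm⟩)

theorem deg_U_branch (hP : IsSubdivision G b P) (A : Finset (ZMod 5 × Fin 3))
    (x : ZMod 5 × Bool) : G.deg (A.biUnion P) (b x) =
      (A.filter fun a => x = end1 a ∨ x = end2 a).card := by
  rw [deg_U G hP, Finset.card_filter]
  exact Finset.sum_congr rfl fun a _ => deg_branch G hP a x

theorem U_even (hP : IsSubdivision G b P) (A : Finset (ZMod 5 × Fin 3))
    (hA : ∀ x, Even (A.filter fun a => x = end1 a ∨ x = end2 a).card) :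
    G.IsEven (A.biUnion P) := by
  intro v
  by_cases hv : v ∈ Set.range b
  · obtain ⟨x, rfl⟩ := hv
    rw [deg_U_branch G hP]
    exact hA x
  · rw [deg_U G hP]
    apply Finset.even_sum
    intro a _
    rcases deg_other G hP a v hv with h | h <;> rw [h]
    · exact ⟨0, rfl⟩
    · exact ⟨1, rfl⟩

theorem cut_parity (X : Finset V) (e : E) :
    (∑ v ∈ X, G.ep e v) % 2 = if e ∈ cut G X then 1 else 0 := by
  induction h : G.ends e using Sym2.ind with
  | _ x y =>
    have h1 : ∑ v ∈ X, G.ep e v = (if x ∈ X then 1 else 0) + (if y ∈ X then 1 else 0) := by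
      rw [Finset.sum_congr rfl fun v _ => G.ep_eq h v, Finset.sum_add_distrib,
        Finset.sum_ite_eq, Finset.sum_ite_eq]
    have h2 : e ∈ cut G X ↔ (x ∈ X ∨ y ∈ X) ∧ (x ∉ X ∨ y ∉ X) := by
      unfold cut
      rw [mem_filter, h]
      simp only [mem_univ, true_and, Sym2.mem_iff]
      constructor
      · rintro ⟨⟨v, hv, hv2⟩, ⟨w, hw, hw2⟩⟩
        rcases hv2 with rfl | rfl <;> rcases hw2 with rfl | rfl <;> tauto
      · rintro ⟨h3 | h3, h4 | h4⟩
        · exact absurd h3 h4
        · exact ⟨⟨x, h3, Or.inl rfl⟩, ⟨y, h4, Or.inr rfl⟩⟩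
        · exact ⟨⟨y, h3, Or.inr rfl⟩, ⟨x, h4, Or.inl rfl⟩⟩
        · exact absurd h3 h4
    rw [h1]
    simp only [h2]
    by_cases hx : x ∈ X <;> by_cases hy : y ∈ X <;> simp [hx, hy]

theorem even_cut (D : Finset E) (hD : G.IsEven D) (X : Finset V) :
    Even (D.filter fun e => e ∈ cut G X).card := by
  have h1 : Even (∑ v ∈ X, G.deg D v) := Finset.even_sum _ fun v _ => hD v
  have h2 : ∑ v ∈ X, G.deg D v = ∑ e ∈ D, ∑ v ∈ X, G.ep e v := by
    rw [Finset.sum_congr rfl fun v _ => G.deg_eq_sum D v, Finset.sum_comm]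
  rw [h2, Nat.even_iff, Finset.sum_nat_mod] at h1
  rw [Finset.sum_congr rfl fun e _ => cut_parity G X e] at h1
  rw [Nat.even_iff, Finset.card_filter]
  exact h1

/-- the weight -/
def W (P : ZMod 5 × Fin 3 → Finset E) (k : ℕ) (f : E) : ℕ :=
  k * ∑ a, if f ∈ P a then wt a else 0

theorem W_mem (hP : IsSubdivision G b P) (k : ℕ) {a : ZMod 5 × Fin 3} {f : E} (hf : f ∈ P a) :
    W P k f = k * wt a := by
  unfold W
  rw [Finset.sum_eq_single a, if_pos hf]
  · intro a' _ hne
    rw [if_neg]
    exact fun h => (Finset.disjoint_left.1 (hP.2.2.1 a' a hne)) h hf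
  · intro h
    exact absurd (mem_univ a) h

theorem W_not (P : ZMod 5 × Fin 3 → Finset E) (k : ℕ) {f : E} (hf : ∀ a, f ∉ P a) :
    W P k f = 0 := by
  unfold W
  rw [Finset.sum_eq_zero, mul_zero]
  intro a _
  rw [if_neg (hf a)]

theorem W_cyc (hP : IsSubdivision G b P) (k : ℕ) (f : E) :
    2 * W P k f = k * ∑ i : ZMod 5, if f ∈ (Cyc i).biUnion P then 1 else 0 := by
  by_cases h : ∃ a, f ∈ P a
  · obtain ⟨a, ha⟩ := h
    rw [W_mem G hP k ha]
    simp only [mem_U G hP _ ha]
    rw [cyc_wt a]
    ring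
  · push Not at h
    rw [W_not P k h, Finset.sum_eq_zero]
    · simp
    · intro i _
      rw [if_neg]
      rw [mem_biUnion]
      rintro ⟨a, _, ha⟩
      exact h a ha

theorem W_mod (hP : IsSubdivision G b P) (k : ℕ) (f : E) :
    W P k f % 2 = (k * if f ∈ Pent.biUnion P then 1 else 0) % 2 := by
  by_cases h : ∃ a, f ∈ P a
  · obtain ⟨a, ha⟩ := h
    rw [W_mem G hP k ha]
    simp only [mem_U G hP _ ha]
    unfold wt Pent
    by_cases h1 : a.2 = 1
    · rw [if_pos h1, if_neg (by rw [mem_filter]; exact fun h2 => h2.2 h1)]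
      omega
    · rw [if_neg h1, if_pos (by rw [mem_filter]; exact ⟨mem_univ _, h1⟩)]
  · push Not at h
    rw [W_not P k h, if_neg]
    · simp
    · rw [mem_biUnion]
      rintro ⟨a, _, ha⟩
      exact h a ha

theorem W_eulerian (hP : IsSubdivision G b P) (k : ℕ) : Eulerian G (W P k) := by
  intro X
  have h1 := even_cut G _ (U_even G hP Pent pent_even) X
  rw [Nat.even_iff, Finset.sum_nat_mod, Finset.sum_congr rfl fun f _ => W_mod G hP k f,
    ← Finset.sum_nat_mod, ← Finset.mul_sum, ← Nat.even_iff]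
  apply Even.mul_left
  convert h1 using 1
  rw [← Finset.card_filter]
  congr 1
  ext f
  rw [mem_filter, mem_filter]
  exact and_comm

theorem W_admissible (hP : IsSubdivision G b P) (k : ℕ) : Admissible G (W P k) := by
  intro X e he
  have h1 : 2 * (2 * W P k e) ≤ ∑ f ∈ cut G X, 2 * W P k f := by
    rw [Finset.sum_congr rfl fun f _ => W_cyc G hP k f, ← Finset.mul_sum, Finset.sum_comm,
      W_cyc G hP k e]
    have h2 : 2 * ∑ i : ZMod 5, (if e ∈ (Cyc i).biUnion P then 1 else 0) ≤
        ∑ i : ZMod 5, ∑ f ∈ cut G X, (if f ∈ (Cyc i).biUnion P then 1 else 0) := by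
      rw [Finset.mul_sum]
      apply Finset.sum_le_sum
      intro i _
      have h3 := even_cut G _ (U_even G hP (Cyc i) (cyc_even i)) X
      have h4 : ((Cyc i).biUnion P).filter (fun e => e ∈ cut G X) =
          (cut G X).filter fun f => f ∈ (Cyc i).biUnion P := by
        ext f
        rw [mem_filter, mem_filter]
        exact and_comm
      rw [h4] at h3
      rw [← Finset.card_filter]
      by_cases h5 : e ∈ (Cyc i).biUnion P
      · rw [if_pos h5]
        have h6 : 0 < ((cut G X).filter fun f => f ∈ (Cyc i).biUnion P).card :=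
          Finset.card_pos.2 ⟨e, mem_filter.2 ⟨he, h5⟩⟩
        obtain ⟨m, hm⟩ := h3
        omega
      · rw [if_neg h5]
        omega
    calc 2 * (k * ∑ i : ZMod 5, (if e ∈ (Cyc i).biUnion P then 1 else 0))
        = k * (2 * ∑ i : ZMod 5, (if e ∈ (Cyc i).biUnion P then 1 else 0)) := by ring
      _ ≤ _ := Nat.mul_le_mul_left k h2
  rw [← Finset.mul_sum, ← Finset.add_sum_erase _ _ he] at h1
  omega

end U

/-! ### Sums over multisets -/

theorem msum (F : Multiset (Finset E)) (e : E) :
    (F.map fun C => if e ∈ C then 1 else 0).sum = F.countP (fun C => e ∈ C) := by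
  induction F using Multiset.induction_on with
  | empty => simp
  | cons C F ih =>
    rw [Multiset.map_cons, Multiset.sum_cons, ih, Multiset.countP_cons]
    exact Nat.add_comm _ _

theorem msum_comm {ι : Type} (F : Multiset (Finset E)) (S : Finset ι) (g : ι → Finset E → ℕ) :
    ∑ a ∈ S, (F.map (g a)).sum = (F.map fun C => ∑ a ∈ S, g a C).sum := by
  induction F using Multiset.induction_on with
  | empty => simp
  | cons C F ih =>
    simp only [Multiset.map_cons, Multiset.sum_cons, Finset.sum_add_distrib, ih]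

theorem msum_le (F : Multiset (Finset E)) (g h : Finset E → ℕ) (hle : ∀ C ∈ F, h C ≤ g C) :
    (F.map h).sum ≤ (F.map g).sum := by
  induction F using Multiset.induction_on with
  | empty => simp
  | cons C F ih =>
    rw [Multiset.map_cons, Multiset.map_cons, Multiset.sum_cons, Multiset.sum_cons]
    exact Nat.add_le_add (hle C (Multiset.mem_cons_self C F))
      (ih fun D hD => hle D (Multiset.mem_cons_of_mem hD))

theorem meq (F : Multiset (Finset E)) (g h : Finset E → ℕ) (hle : ∀ C ∈ F, h C ≤ g C)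
    (heq : (F.map g).sum = (F.map h).sum) : ∀ C ∈ F, g C = h C := by
  induction F using Multiset.induction_on with
  | empty => simp
  | cons C F ih =>
    rw [Multiset.map_cons, Multiset.map_cons, Multiset.sum_cons, Multiset.sum_cons] at heq
    have h1 := hle C (Multiset.mem_cons_self C F)
    have h2 : ∀ D ∈ F, h D ≤ g D := fun D hD => hle D (Multiset.mem_cons_of_mem hD)
    have h3 := msum_le F g h h2
    intro D hD
    rcases Multiset.mem_cons.1 hD with rfl | hD
    · omega
    · exact ih h2 (by omega) D hD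

theorem meven (F : Multiset (Finset E)) (g : Finset E → ℕ) (hg : ∀ C ∈ F, Even (g C)) :
    Even (F.map g).sum := by
  induction F using Multiset.induction_on with
  | empty => simp
  | cons C F ih =>
    rw [Multiset.map_cons, Multiset.sum_cons]
    exact (hg C (Multiset.mem_cons_self C F)).add
      (ih fun D hD => hg D (Multiset.mem_cons_of_mem hD))

/-! ### The weight has no faithful circuit cover -/

theorem no_cover (G : MGraph V E) {b : ZMod 5 × Bool → V} {P : ZMod 5 × Fin 3 → Finset E}
    (hP : IsSubdivision G b P) (k : ℕ) (hk : Odd k) : ¬ HasCover G (W P k) := by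
  rintro ⟨F, hC, hw⟩
  have hk0 : 0 < k := hk.pos
  have supp : ∀ C ∈ F, ∀ f ∈ C, ∃ a, f ∈ P a := by
    intro C hCF f hf
    by_contra hno
    push Not at hno
    have h2 := hw f
    rw [W_not P k hno, Multiset.countP_eq_zero] at h2
    exact h2 C hCF hf
  have aon : ∀ C ∈ F, ∀ a, ∀ f ∈ P a, f ∈ C → P a ⊆ C := by
    intro C hCF a f hf hfC g hg
    have key : ∀ g, Relation.ReflTransGen
        (fun a' b' => b' ∈ P a ∧ ∃ v, v ∈ G.ends a' ∧ v ∈ G.ends b') f g → g ∈ P a ∧ g ∈ C := by
      intro g hg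
      induction hg with
      | refl => exact ⟨hf, hfC⟩
      | @tail g1 g2 _ h12 ih =>
        obtain ⟨h2P, v, hv1, hv2⟩ := h12
        refine ⟨h2P, ?_⟩
        by_contra hn
        have hne : g1 ≠ g2 := by rintro rfl; exact hn ih.2
        have hge : 2 ≤ G.deg (P a) v := by
          have h3 : ({g1, g2} : Finset E) ⊆ P a := by
            intro z hz
            rw [mem_insert, mem_singleton] at hz
            rcases hz with rfl | rfl
            · exact ih.1
            · exact h2P
          have h4 : ∑ e ∈ ({g1, g2} : Finset E), G.ep e v ≤ ∑ e ∈ P a, G.ep e v :=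
            Finset.sum_le_sum_of_subset h3
          rw [Finset.sum_pair hne, ← G.deg_eq_sum] at h4
          have h5 := ep_pos G hv1
          have h6 := ep_pos G hv2
          omega
        have hvr : v ∉ Set.range b := by
          rintro ⟨x, rfl⟩
          rw [deg_branch G hP] at hge
          split_ifs at hge <;> omega
        have hdP : G.deg (P a) v = 2 := by
          rcases deg_other G hP a v hvr with h | h <;> omega
        have hdC : G.deg C v = 2 := by
          have h3 := ep_le_deg G ih.2 v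
          have h4 := ep_pos G hv1
          rcases (hC C hCF).2.1 v with h | h
          · omega
          · exact h
        have hsub : G.deg C v = ∑ e ∈ C.filter (fun e => e ∈ P a), G.ep e v := by
          rw [G.deg_eq_sum, Finset.sum_filter]
          apply Finset.sum_congr rfl
          intro e he
          by_cases hea : e ∈ P a
          · rw [if_pos hea]
          · rw [if_neg hea]
            apply G.ep_eq_zero
            intro hve
            obtain ⟨a', ha'⟩ := supp C hCF e he
            have hne' : a' ≠ a := by rintro rfl; exact hea ha'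
            apply hvr
            apply hP.2.2.2.1 a' a v hne'
            · have h3 := ep_le_deg G ha' v
              have h4 := ep_pos G hve
              omega
            · omega
        have h7 : ∑ e ∈ insert g2 (C.filter (fun e => e ∈ P a)), G.ep e v ≤
            ∑ e ∈ P a, G.ep e v := by
          apply Finset.sum_le_sum_of_subset
          intro z hz
          rw [mem_insert, mem_filter] at hz
          rcases hz with rfl | hz
          · exact h2P
          · exact hz.2
        rw [Finset.sum_insert (by rw [mem_filter]; exact fun h => hn h.1), ← hsub,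
          ← G.deg_eq_sum] at h7
        have h8 := ep_pos G hv2
        omega
    exact (key g ((hP.2.1 a).2.2.2.2 f hf g hg)).2
  have hne : ∀ a, (P a).Nonempty := by
    intro a
    rw [Finset.nonempty_iff_ne_empty]
    intro h
    have h1 := (hP.2.1 a).2.1
    rw [h, G.deg_eq_sum] at h1
    simp at h1
  choose r hr using hne
  let A : Finset E → Finset (ZMod 5 × Fin 3) := fun C => univ.filter fun a => r a ∈ C
  have hCU : ∀ C ∈ F, C = (A C).biUnion P := by
    intro C hCF
    ext f
    rw [mem_biUnion]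
    constructor
    · intro hf
      obtain ⟨a, ha⟩ := supp C hCF f hf
      exact ⟨a, mem_filter.2 ⟨mem_univ _, aon C hCF a f ha hf (hr a)⟩, ha⟩
    · rintro ⟨a, ha, hf⟩
      exact aon C hCF a (r a) (hr a) (mem_filter.1 ha).2 hf
  have hinc : ∀ C x, ∑ a ∈ inc x, (if r a ∈ C then 1 else 0) =
      ((A C).filter fun a => x = end1 a ∨ x = end2 a).card := by
    intro C x
    rw [← Finset.card_filter]
    congr 1
    ext a
    simp only [inc, A, mem_filter, mem_univ, true_and]
    exact and_comm
  have hdeg : ∀ C ∈ F, ∀ x, ∑ a ∈ inc x, (if r a ∈ C then 1 else 0) = 0 ∨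
      ∑ a ∈ inc x, (if r a ∈ C then 1 else 0) = 2 := by
    intro C hCF x
    rw [hinc, ← deg_U_branch G hP (A C) x, ← hCU C hCF]
    exact (hC C hCF).2.1 (b x)
  have hW : ∀ a, (F.map fun C => if r a ∈ C then 1 else 0).sum = k * wt a := by
    intro a
    rw [msum, hw, W_mem G hP k (hr a)]
  have hall : ∀ C ∈ F, ∀ x : ZMod 5 × Bool, ∑ a ∈ inc x, (if r a ∈ C then 1 else 0) =
      2 * (if r (x.1, 1) ∈ C then 1 else 0) := by
    intro C hCF x
    refine meq F (fun C => ∑ a ∈ inc x, (if r a ∈ C then 1 else 0))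
      (fun C => 2 * (if r (x.1, 1) ∈ C then 1 else 0)) ?_ ?_ C hCF
    · intro D hD
      by_cases h1 : r (x.1, 1) ∈ D
      · have h2 : (if r (x.1, 1) ∈ D then 1 else 0) ≤
            ∑ a ∈ inc x, (if r a ∈ D then 1 else 0) :=
          Finset.single_le_sum (f := fun a => if r a ∈ D then 1 else 0)
            (fun _ _ => Nat.zero_le _) (spoke_mem x)
        rw [if_pos h1] at h2
        show 2 * (if r (x.1, 1) ∈ D then 1 else 0) ≤ _
        rw [if_pos h1]
        rcases hdeg D hD x with h | h
        · omega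
        · show 2 * 1 ≤ ∑ a ∈ inc x, (if r a ∈ D then 1 else 0)
          omega
      · show 2 * (if r (x.1, 1) ∈ D then 1 else 0) ≤ _
        rw [if_neg h1]
        exact Nat.zero_le _
    · rw [← msum_comm F (inc x) (fun a C => if r a ∈ C then 1 else 0),
        Finset.sum_congr rfl fun a _ => hW a, ← Finset.mul_sum, inc_wt x,
        Multiset.sum_map_mul_left, hW]
      show k * 4 = 2 * (k * 2)
      ring
  have hev : ∀ C ∈ F, Even (∑ i : ZMod 5, (if r (i, 0) ∈ C then 1 else 0)) := by
    intro C hCF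
    refine finite_check (fun a => if r a ∈ C then 1 else 0) ?_ (hall C hCF)
    intro a
    show (if r a ∈ C then 1 else 0) ≤ 1
    split_ifs <;> omega
  have h1 := meven F _ hev
  rw [← msum_comm F univ (fun (i : ZMod 5) C => if r (i, 0) ∈ C then 1 else 0),
    Finset.sum_congr rfl fun i _ => hW (i, 0)] at h1
  have h2 : ∑ i : ZMod 5, k * wt (i, 0) = 5 * k := by
    have h3 : ∀ i : ZMod 5, k * wt (i, 0) = k := by
      intro i
      show k * 1 = k
      ring
    rw [Finset.sum_congr rfl fun i _ => h3 i, Finset.sum_const]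
    simp
  rw [h2, Nat.even_mul] at h1
  rcases h1 with h1 | h1
  · exact absurd h1 (by decide)
  · exact (Nat.not_even_iff_odd.2 hk) h1

/-- Let k be odd and let G contain a subdivision of the Petersen graph. Then there is an admissible
eulerian weight of G with values in 0, k, 2 k that has no faithful circuit cover; in particular G
does not have property P_k. -/
theorem result (G : MGraph V E) (k : ℕ) (hk : Odd k) (hG : ContainsPetersenSubdivision G) :
    (∃ w : E → ℕ, (∀ e, w e = 0 ∨ w e = k ∨ w e = 2 * k) ∧ Admissible G w ∧ Eulerian G w ∧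
      ¬ HasCover G w) ∧ ¬ PropertyP k G := by
  obtain ⟨b, P, hP⟩ := hG
  have hval : ∀ e, W P k e = 0 ∨ W P k e = k ∨ W P k e = 2 * k := by
    intro e
    by_cases h : ∃ a, e ∈ P a
    · obtain ⟨a, ha⟩ := h
      rw [W_mem G hP k ha]
      unfold wt
      split_ifs
      · right; right; ring
      · right; left; ring
    · push Not at h
      exact Or.inl (W_not P k h)
  refine ⟨⟨W P k, hval, W_admissible G hP k, W_eulerian G hP k, no_cover G hP k hk⟩, ?_⟩
  intro h
  refine no_cover G hP k hk (h (W P k) ?_ (W_admissible G hP k) (W_eulerian G hP k))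
  intro e
  exact ⟨_, rfl⟩

end Pool.Agent.Results.MP_3c540c_co.OddMultiples
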